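import Mathlib

set_option autoImplicit false

namespace Pool.Agent.Results.MP_b7f7f4_co.OddBlock

open Finset Function

/-- No symbol repeats in any row or column. -/
def Latin {n : ℕ} (L : Fin n → Fin n → Fin n) : Prop :=
  (∀ x, Injective (L x)) ∧ ∀ y, Injective fun x => L x y

/-- A `k`-weight: integer cell values summing to `k` on every row, column and symbol. -/
def IsWeight {n : ℕ} (L : Fin n → Fin n → Fin n) (k : ℤ) (θ : Fin n → Fin n → ℤ) : Prop :=
  (∀ x, ∑ y, θ x y = k) ∧ (∀ y, ∑ x, θ x y = k) ∧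
    ∀ z, ∑ c : Fin n × Fin n with L c.1 c.2 = z, θ c.1 c.2 = k

/-- The set of symbols used by a `q × q` block. -/
def symbols {n q : ℕ} (A : Fin q → Fin q → Fin n) : Set (Fin n) := {z | ∃ a b, A a b = z}

/-- A `q × q` block that is itself a latin square: `q` symbols, none repeated in a row or column. -/
def LatinBlock {n q : ℕ} (A : Fin q → Fin q → Fin n) : Prop :=
  (symbols A).ncard = q ∧ (∀ a, Injective (A a)) ∧ ∀ b, Injective fun a => A a b

/-- After permuting rows and columns, `L` is a `2m × 2m` block matrix of latin squares of odd order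
`q`, two blocks using the same symbols iff the Cayley table of `ℤ_{2m}` agrees there. -/
def OddBlockPattern {n : ℕ} (L : Fin n → Fin n → Fin n) (m : ℕ) : Prop :=
  ∃ (q : ℕ) (ρ γ : ZMod (2 * m) × Fin q ≃ Fin n), Odd q ∧
    (∀ i j, LatinBlock fun a b => L (ρ (i, a)) (γ (j, b))) ∧
    ∀ i j i' j', symbols (fun a b => L (ρ (i, a)) (γ (j, b))) =
      symbols (fun a b => L (ρ (i', a)) (γ (j', b))) ↔ i + j = i' + j'

abbrev Circ := AddCircle (1 : ℚ)

theorem cyclic (H : AddSubgroup Circ) [Fintype H] : IsAddCyclic H := by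
  classical
  apply isAddCyclic_of_card_nsmul_eq_zero_le
  intro k hk
  have hk' : (k : ℚ) ≠ 0 := by exact_mod_cast hk.ne'
  have h1 := AddCircle.card_torsion_le_of_isSMulRegular (1 : ℚ) k hk.ne' (fun a b h => by
    simp only [nsmul_eq_mul] at h
    exact mul_left_cancel₀ hk' h)
  have h2 : ((↑) : H → Circ) '' (univ.filter fun a : H => k • a = 0 : Finset H) ⊆
      {x : Circ | k • x = 0} := by
    rintro _ ⟨a, ha, rfl⟩
    have h3 : k • a = 0 := (mem_filter.1 ha).2
    exact congrArg Subtype.val h3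
  have h3 := (Set.encard_le_encard h2).trans h1
  rw [Subtype.val_injective.encard_image, Set.encard_coe_eq_coe_finsetCard] at h3
  exact_mod_cast h3

theorem exists_equiv {n q : ℕ} {Z : Type} [DecidableEq Z] (f : Fin n → Z)
    (h : ∀ i, #{x | f x = i} = q) : ∃ ρ : Z × Fin q ≃ Fin n, ∀ i a, f (ρ (i, a)) = i := by
  have e : ∀ i, Fin q ≃ {x // f x = i} := fun i =>
    (Fintype.equivFinOfCardEq (by rw [Fintype.card_subtype, h i])).symm
  exact ⟨((Equiv.sigmaEquivProd Z (Fin q)).symm.trans (Equiv.sigmaCongrRight e)).trans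
    (Equiv.sigmaFiberEquiv f), fun i a => (e i a).2⟩

theorem sum_fib {n q : ℕ} {Z : Type} [AddCommGroup Z] [Fintype Z] [DecidableEq Z] (f : Fin n → Z)
    (h : ∀ i, #{x | f x = i} = q) : ∑ x, f x = q • ∑ i : Z, i := by
  rw [← sum_fiberwise univ f, smul_sum]
  refine sum_congr rfl fun i _ => ?_
  rw [sum_congr rfl (g := fun _ => i) fun x hx => (mem_filter.1 hx).2, sum_const, h i]

/-- The case of a homotopy onto a finite abelian group. -/
theorem fibers {n : ℕ} {L : Fin n → Fin n → Fin n} (hL : Latin L) {Z : Type} [AddCommGroup Z]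
    [DecidableEq Z] (r c s : Fin n → Z) (h : ∀ x y, r x + c y = s (L x y))
    (hr : Surjective r) (hc : Surjective c) :
    ∃ q, (∀ i, #{x | r x = i} = q) ∧ (∀ i, #{x | c x = i} = q) ∧ ∀ i, #{x | s x = i} = q := by
  have h1 : ∀ i k, #{x | r x = i} = #{x | s x = i + k} := fun i k => by
    obtain ⟨y, rfl⟩ := hc k
    refine card_bijective (fun x => L x y) (Finite.injective_iff_bijective.1 (hL.2 y)) fun x => ?_
    simp only [mem_filter, mem_univ, true_and, ← h, add_left_inj]
  have h2 : ∀ i k, #{x | c x = i} = #{x | s x = k + i} := fun i k => by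
    obtain ⟨x, rfl⟩ := hr k
    refine card_bijective (L x) (Finite.injective_iff_bijective.1 (hL.1 x)) fun y => ?_
    simp only [mem_filter, mem_univ, true_and, ← h, add_right_inj]
  refine ⟨#{x | s x = 0}, fun i => ?_, fun i => ?_, fun i => ?_⟩
  · rw [h1 i (-i), add_neg_cancel]
  · rw [h2 i (-i), neg_add_cancel]
  · have h3 := h1 i 0
    rw [add_zero] at h3
    rw [← h3, h1 i (-i), add_neg_cancel]

theorem of_zmod {n N : ℕ} [NeZero N] {L : Fin n → Fin n → Fin n} (hL : Latin L)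
    (r c s : Fin n → ZMod N) (h : ∀ x y, r x + c y = s (L x y))
    (hr : Surjective r) (hc : Surjective c) (hs : ∑ x, r x + ∑ x, c x - ∑ x, s x ≠ 0) :
    ∃ m, 1 ≤ m ∧ OddBlockPattern L m := by
  obtain ⟨q, h1, h2, h3⟩ := fibers hL r c s h hr hc
  rw [sum_fib r h1, sum_fib c h2, sum_fib s h3, add_sub_cancel_right] at hs
  have h4 : 2 • ∑ i : ZMod N, i = 0 := by
    rw [two_nsmul]
    nth_rewrite 1 [← Equiv.sum_comp (Equiv.neg (ZMod N))]
    rw [← sum_add_distrib]
    simp
  have hq : Odd q := by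
    rcases Nat.even_or_odd q with ⟨t, rfl⟩ | hq
    · exact absurd (by rw [← two_mul, mul_nsmul, h4, smul_zero]) hs
    · exact hq
  obtain ⟨m, rfl⟩ : ∃ m, N = 2 * m := by
    rcases Nat.even_or_odd N with ⟨t, ht⟩ | ⟨t, ht⟩
    · exact ⟨t, by omega⟩
    · have h5 : N • ∑ i : ZMod N, i = 0 := by simp
      have h6 : (2 * t + 1) • ∑ i : ZMod N, i = 0 := by rw [← ht]; exact h5
      rw [add_nsmul, mul_nsmul, h4, smul_zero, zero_add, one_nsmul] at h6
      exact absurd (by rw [h6, smul_zero]) hs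
  have hm : 1 ≤ m := by
    have := NeZero.ne (2 * m)
    omega
  obtain ⟨ρ, hρ⟩ := exists_equiv r h1
  obtain ⟨γ, hγ⟩ := exists_equiv c h2
  have a0 : Fin q := ⟨0, hq.pos⟩
  have key : ∀ i j, symbols (fun a b => L (ρ (i, a)) (γ (j, b))) = {z | s z = i + j} := by
    intro i j
    ext z
    constructor
    · rintro ⟨a, b, rfl⟩
      simp only [Set.mem_ofPred_eq, ← h, hρ, hγ]
    · intro hz
      obtain ⟨y, rfl⟩ := Finite.injective_iff_surjective.1 (hL.1 (ρ (i, a0))) z
      obtain ⟨⟨j', b⟩, rfl⟩ := γ.surjective y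
      simp only [Set.mem_ofPred_eq, ← h, hρ, hγ, add_right_inj] at hz
      subst hz
      exact ⟨a0, b, rfl⟩
  refine ⟨m, hm, q, ρ, γ, hq, fun i j => ⟨?_, fun a b b' e => ?_, fun b a a' e => ?_⟩,
    fun i j i' j' => ?_⟩
  · rw [key, ← h3 (i + j), ← Set.ncard_coe_finset]
    simp
  · exact (Prod.ext_iff.1 (γ.injective (hL.1 _ e))).2
  · exact (Prod.ext_iff.1 (ρ.injective (hL.2 _ e))).2
  · rw [key, key]
    refine ⟨fun e => ?_, fun e => by rw [e]⟩
    have h5 : L (ρ (i, a0)) (γ (j, a0)) ∈ {z | s z = i + j} := by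
      simp only [Set.mem_ofPred_eq, ← h, hρ, hγ]
    have h6 := h5
    rw [e] at h6
    exact h5.symm.trans h6

theorem of_circ {n : ℕ} {L : Fin n → Fin n → Fin n} (hL : Latin L)
    (r c s : Fin n → Circ) (h : ∀ x y, r x + c y = s (L x y)) (x0 y0 : Fin n)
    (hx : r x0 = 0) (hy : c y0 = 0) (hs : ∑ x, r x + ∑ x, c x - ∑ x, s x ≠ 0) :
    ∃ m, 1 ≤ m ∧ OddBlockPattern L m := by
  classical
  have s1 : ∀ x z, ∃ y, L x y = z := fun x => Finite.injective_iff_surjective.1 (hL.1 x)
  have s2 : ∀ y z, ∃ x, L x y = z := fun y => Finite.injective_iff_surjective.1 (hL.2 y)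
  have e1 : ∀ z, ∃ x, r x = s z := fun z => by
    obtain ⟨x, rfl⟩ := s2 y0 z
    exact ⟨x, by rw [← h, hy, add_zero]⟩
  have e2 : ∀ z, ∃ y, c y = s z := fun z => by
    obtain ⟨y, rfl⟩ := s1 x0 z
    exact ⟨y, by rw [← h, hx, zero_add]⟩
  have m1 : ∀ x, r x ∈ Set.range s := fun x => ⟨L x y0, by rw [← h, hy, add_zero]⟩
  have m2 : ∀ y, c y ∈ Set.range s := fun y => ⟨L x0 y, by rw [← h, hx, zero_add]⟩
  let H : AddSubgroup Circ :=
    { carrier := Set.range s
      zero_mem' := hx ▸ m1 x0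
      add_mem' := by
        rintro _ _ ⟨a, rfl⟩ ⟨b, rfl⟩
        obtain ⟨x, h1⟩ := e1 a
        obtain ⟨y, h2⟩ := e2 b
        exact ⟨L x y, by rw [← h, h1, h2]⟩
      neg_mem' := by
        rintro _ ⟨a, rfl⟩
        obtain ⟨x, h1⟩ := e1 a
        obtain ⟨y, h2⟩ := s1 x (L x0 y0)
        have h3 := h x y
        rw [h2, ← h, hx, hy, add_zero, h1] at h3
        rw [neg_eq_of_add_eq_zero_right h3]
        exact m2 y }
  have : Finite H := (Set.finite_range s).to_subtype
  have := Fintype.ofFinite H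
  have : NeZero (Nat.card H) := ⟨Nat.card_pos.ne'⟩
  let e := (zmodAddCyclicAddEquiv (cyclic H)).symm
  refine of_zmod hL (fun x => e ⟨r x, m1 x⟩) (fun y => e ⟨c y, m2 y⟩) (fun z => e ⟨s z, z, rfl⟩)
    (fun x y => ?_) (fun i => ?_) (fun i => ?_) fun h0 => hs ?_
  · rw [← map_add]
    exact congrArg e (Subtype.ext (h x y))
  · obtain ⟨⟨_, z, rfl⟩, rfl⟩ := e.surjective i
    obtain ⟨x, h1⟩ := e1 z
    exact ⟨x, congrArg e (Subtype.ext h1)⟩
  · obtain ⟨⟨_, z, rfl⟩, rfl⟩ := e.surjective i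
    obtain ⟨y, h1⟩ := e2 z
    exact ⟨y, congrArg e (Subtype.ext h1)⟩
  · rw [← map_sum, ← map_sum, ← map_sum, ← map_add, ← map_sub, e.map_eq_zero_iff] at h0
    have h1 := congrArg H.subtype h0
    simpa only [map_add, map_sub, map_sum, map_zero, AddSubgroup.coe_subtype] using h1

/-- Row, column and symbol sums of a cell weighting. -/
def sums {n : ℕ} (L : Fin n → Fin n → Fin n) :
    (Fin n × Fin n → ℤ) →+ (Fin n → ℤ) × (Fin n → ℤ) × (Fin n → ℤ) where
  toFun θ := (fun x => ∑ y, θ (x, y), fun y => ∑ x, θ (x, y),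
    fun z => ∑ c : Fin n × Fin n with L c.1 c.2 = z, θ c)
  map_zero' := by
    simp only [Pi.zero_apply, sum_const_zero]
    rfl
  map_add' a b := by
    simp only [Pi.add_apply, sum_add_distrib]
    rfl

theorem sums_single {n : ℕ} (L : Fin n → Fin n → Fin n) (x y : Fin n) :
    sums L (Pi.single (x, y) 1) = (Pi.single x 1, 0, 0) + (0, Pi.single y 1, 0) +
      (0, 0, Pi.single (L x y) 1) := by
  simp only [Prod.mk_add_mk, add_zero, zero_add]
  refine Prod.ext (funext fun a => ?_) (Prod.ext (funext fun a => ?_) (funext fun a => ?_))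
  · by_cases h : a = x <;> simp [sums, Pi.single_apply, h, filter_eq']
  · by_cases h : a = y <;> simp [sums, Pi.single_apply, h, filter_eq']
  · simp [sums, Pi.single_apply, eq_comm]

theorem result (n : ℕ) (L : Fin n → Fin n → Fin n) (hL : Latin L)
    (h : ¬ ∃ (k : ℤ) (θ : Fin n → Fin n → ℤ), Odd k ∧ IsWeight L k θ) :
    ∃ m, 1 ≤ m ∧ OddBlockPattern L m := by
  have h1 : QuotientAddGroup.mk' (sums L).range (1, 1, 1) ≠ 0 := fun h1 => by
    obtain ⟨θ, hθ⟩ := (QuotientAddGroup.eq_zero_iff _).1 h1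
    refine h ⟨1, fun x y => θ (x, y), odd_one, fun x => ?_, fun y => ?_, fun z => ?_⟩
    · exact congrFun (congrArg Prod.fst hθ) x
    · exact congrFun (congrArg (fun p => p.2.1) hθ) y
    · exact congrFun (congrArg (fun p => p.2.2) hθ) z
  obtain ⟨χ, hχ⟩ := CharacterModule.exists_character_apply_ne_zero_of_ne_zero h1
  let φ : (Fin n → ℤ) × (Fin n → ℤ) × (Fin n → ℤ) →+ Circ :=
    AddMonoidHom.comp χ (QuotientAddGroup.mk' (sums L).range)
  have h2 : φ (1, 1, 1) ≠ 0 := hχ
  have h3 : ∀ θ, φ (sums L θ) = 0 := fun θ => by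
    have : QuotientAddGroup.mk' (sums L).range (sums L θ) = 0 :=
      (QuotientAddGroup.eq_zero_iff _).2 ⟨θ, rfl⟩
    simp only [φ, AddMonoidHom.comp_apply, this, map_zero]
  let r : Fin n → Circ := fun x => φ (Pi.single x 1, 0, 0)
  let c : Fin n → Circ := fun x => φ (0, Pi.single x 1, 0)
  let s : Fin n → Circ := fun x => φ (0, 0, Pi.single x 1)
  have h4 : ∀ x y, r x + c y + s (L x y) = 0 := fun x y => by
    rw [← h3 (Pi.single (x, y) 1), sums_single, map_add, map_add]
  have h5 : ∑ x, r x + ∑ x, c x + ∑ x, s x = φ (1, 1, 1) := by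
    simp only [r, c, s, ← map_sum, ← map_add]
    congr 1
    refine Prod.ext (funext fun a => ?_) (Prod.ext (funext fun a => ?_) (funext fun a => ?_)) <;>
      simp [Prod.fst_sum, Prod.snd_sum, Pi.single_apply]
  rcases Nat.eq_zero_or_pos n with rfl | hn
  · exact absurd (by rw [← h5]; simp) h2
  let o : Fin n := ⟨0, hn⟩
  refine of_circ hL (fun x => r x - r o) (fun y => c y - c o) (fun z => -s z - r o - c o)
    (fun x y => ?_) o o (sub_self _) (sub_self _) fun h0 => h2 ?_
  · rw [← eq_neg_of_add_eq_zero_left (h4 x y)]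
    abel
  · rw [← h5, ← h0]
    simp only [sum_sub_distrib, sum_neg_distrib]
    abel

end Pool.Agent.Results.MP_b7f7f4_co.OddBlock
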